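import Pool.Agent.H92.EQ.TF1

/-!
A1: `mixD` is multilinear.
-/

set_option autoImplicit false

namespace Pool.Agent.H1.EQ

open scoped BigOperators ComplexConjugate ContDiff ComplexOrder
open MeasureTheory Pool.Agent.H92.EQ

theorem prod_upd {ι : Type} {m : ℕ} (H : Fin m → Matrix ι ι ℂ) (j : Fin m) (X : Matrix ι ι ℂ)
    (f g : Fin m → ι) : ∏ i, (Function.update H j X) i (f i) (g i) =
      X (f j) (g j) * ∏ i ∈ Finset.univ.erase j, H i (f i) (g i) := by
  rw [← Finset.mul_prod_erase Finset.univ _ (Finset.mem_univ j), Function.update_self]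
  congr 1
  refine Finset.prod_congr rfl fun i hi => ?_
  rw [Function.update_of_ne (Finset.ne_of_mem_erase hi)]

theorem pf_A1 : T_A1 := by
  intro ι _ _ p m S S' H j A B c
  refine ⟨?_, ?_, ?_, ?_⟩
  · unfold mixD
    rw [← Finset.sum_add_distrib]
    refine Finset.sum_congr rfl fun e _ => ?_
    rw [← Finset.sum_add_distrib]
    refine Finset.sum_congr rfl fun e' _ => ?_
    rw [prod_upd H j (A + B) (fun i => e (Sum.inr i)) (fun i => e' (Sum.inr i)),
      prod_upd H j A (fun i => e (Sum.inr i)) (fun i => e' (Sum.inr i)),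
      prod_upd H j B (fun i => e (Sum.inr i)) (fun i => e' (Sum.inr i)), Matrix.add_apply]
    ring
  · unfold mixD
    rw [Finset.mul_sum]
    refine Finset.sum_congr rfl fun e _ => ?_
    rw [Finset.mul_sum]
    refine Finset.sum_congr rfl fun e' _ => ?_
    rw [prod_upd H j (c • A) (fun i => e (Sum.inr i)) (fun i => e' (Sum.inr i)),
      prod_upd H j A (fun i => e (Sum.inr i)) (fun i => e' (Sum.inr i)), Matrix.smul_apply,
      smul_eq_mul]
    ring
  · unfold mixD
    rw [← Finset.sum_add_distrib]
    refine Finset.sum_congr rfl fun e _ => ?_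
    rw [← Finset.sum_add_distrib]
    refine Finset.sum_congr rfl fun e' _ => ?_
    ring
  · unfold mixD
    rw [Finset.mul_sum]
    refine Finset.sum_congr rfl fun e _ => ?_
    rw [Finset.mul_sum]
    refine Finset.sum_congr rfl fun e' _ => ?_
    ring

end Pool.Agent.H1.EQ
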