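import Pool.Agent.H71.EQ.Targets

/-!
# Row KAP of the board eqr (MP_7ecdd4_nt): the total mass as an Euler product
-/

set_option autoImplicit false

open Filter
open scoped Topology

namespace Pool.Agent.H1.EQ

open Pool.Agent.H71.EQ

/-- the quotient of the local densities -/
noncomputable def rho (k p j : ℕ) : ℝ := wloc (k + 1) p j / wloc (k + 1) p 0

/-- the multiplicative function -/
noncomputable def G (k : ℕ) (E : ℕ) : ℝ := E.factorization.prod (rho k) * (E : ℝ) ^ (1 - nu k)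

theorem nu_pos (k : ℕ) : 0 < nu k := by unfold nu; positivity

theorem one_sub_nu {k : ℕ} (hk : 2 ≤ k) : 0 < 1 - nu k := by
  unfold nu
  have h1 : (2 : ℝ) ≤ k := by exact_mod_cast hk
  have h2 : 1 / ((k : ℝ) + 1) < 1 := by
    rw [div_lt_one (by linarith)]
    linarith
  linarith

theorem G_one (k : ℕ) : G k 1 = 1 := by simp [G]

theorem G_zero {k : ℕ} (hk : 2 ≤ k) : G k 0 = 0 := by
  unfold G
  rw [Nat.cast_zero, Real.zero_rpow (one_sub_nu hk).ne', mul_zero]

theorem G_mul (k : ℕ) {m n : ℕ} (h : Nat.Coprime m n) : G k (m * n) = G k m * G k n := by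
  unfold G
  rw [Nat.factorization_mul_of_coprime h, Finsupp.prod_add_index_of_disjoint
    (by simpa using h.disjoint_primeFactors)]
  push_cast
  rw [Real.mul_rpow (Nat.cast_nonneg _) (Nat.cast_nonneg _)]
  ring

theorem wt_eq (h2 : T_PRD) {k : ℕ} (hk : 2 ≤ k) {E : ℕ} (hE : 1 ≤ E) :
    wt (k + 1) E = wt (k + 1) 1 * E.factorization.prod (rho k) := by
  obtain ⟨hm1, -, -, -, hloc⟩ := h2 k 1 hk le_rfl
  have hm1' : HasProd (fun p : Nat.Primes => wloc (k + 1) p ((1 : ℕ).factorization p))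
      (wt (k + 1) 1) := hm1.hasProd
  have h3 : HasProd (fun p : Nat.Primes => rho k p (E.factorization p))
      (E.factorization.prod (rho k)) := by
    have h4 : E.factorization.prod (rho k) =
        ∏ p ∈ (E.primeFactors.subtype Nat.Prime), rho k p (E.factorization p) := by
      unfold Finsupp.prod
      rw [Nat.support_factorization]
      exact (Finset.prod_subtype_of_mem (fun p => rho k p (E.factorization p))
        fun p hp => Nat.prime_of_mem_primeFactors hp).symm
    rw [h4]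
    refine hasProd_prod_of_ne_finset_one fun p hp => ?_
    have h5 : E.factorization p = 0 := by
      rw [Nat.factorization_eq_zero_iff]
      by_contra hc
      push Not at hc
      exact hp (Finset.mem_subtype.2 (Nat.mem_primeFactors.2 ⟨hc.1, hc.2.1, hc.2.2⟩))
    rw [h5]
    unfold rho
    exact div_self (hloc p 0 p.2).2.2.ne'
  have h6 := hm1'.mul h3
  have h7 : (fun p : Nat.Primes => wloc (k + 1) p ((1 : ℕ).factorization p) *
      rho k p (E.factorization p)) = fun p : Nat.Primes => wloc (k + 1) p (E.factorization p) := by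
    funext p
    unfold rho
    have h8 := (hloc p 0 p.2).2.2.ne'
    rw [Nat.factorization_one]
    simp only [Finsupp.coe_zero, Pi.zero_apply]
    field_simp
  rw [h7] at h6
  exact h6.tprod_eq

/-- the local factor -/
theorem local_eq {k p : ℕ} (hp : p.Prime) (h0 : 0 < wloc (k + 1) p 0) :
    wloc (k + 1) p 0 * ∑' e : ℕ, G k (p ^ e) =
      (cnt (k + 1) p + ((k : ℝ) + 1) * cnt k p *
        ∑ j ∈ Finset.range (k + 1), ((p : ℕ) : ℝ) ^ (-((j : ℝ) * nu k))) / ((p : ℕ) : ℝ) ^ k := by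
  have hp0 : (0 : ℝ) < p := by exact_mod_cast hp.pos
  have hp1 : (1 : ℝ) < p := by exact_mod_cast hp.one_lt
  set r : ℝ := (p : ℝ) ^ (-nu k) with hr
  have hr0 : 0 < r := Real.rpow_pos_of_pos hp0 _
  have hr1 : r < 1 := Real.rpow_lt_one_of_one_lt_of_neg hp1 (by linarith [nu_pos k])
  have hrk : r ^ (k + 1) = 1 / p := by
    rw [hr, ← Real.rpow_natCast, ← Real.rpow_mul hp0.le, one_div, ← Real.rpow_neg_one]
    congr 1
    unfold nu
    push_cast
    have : (k : ℝ) + 1 ≠ 0 := by positivity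
    field_simp
  have hG : ∀ e : ℕ, G k (p ^ e) = rho k p e * (p : ℝ) ^ e * r ^ e := by
    intro e
    unfold G
    rw [hp.factorization_pow, Finsupp.prod_single_index]
    · push_cast
      have h1 : ((p : ℝ) ^ e) ^ (1 - nu k) = (p : ℝ) ^ e * r ^ e := by
        rw [hr, ← Real.rpow_natCast, ← Real.rpow_natCast, ← Real.rpow_mul hp0.le,
          ← Real.rpow_mul hp0.le, ← Real.rpow_add hp0]
        congr 1
        ring
      rw [h1]
      ring
    · unfold rho
      exact div_self h0.ne'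
  have hterm : ∀ e : ℕ, wloc (k + 1) p 0 * G k (p ^ (e + 1)) =
      (((k : ℝ) + 1) * cnt k p * (1 - 1 / (p : ℝ)) / (p : ℝ) ^ k) * r ^ (e + 1) := by
    intro e
    rw [hG]
    unfold rho
    have h1 : wloc (k + 1) p (e + 1) =
        ((k : ℝ) + 1) * cnt k p * (1 - 1 / (p : ℝ)) / (p : ℝ) ^ (e + 1) / (p : ℝ) ^ k := by
      unfold wloc
      rw [if_neg (by omega)]
      push_cast
      simp
    rw [h1]
    have h2 := h0.ne'
    have h3 : (p : ℝ) ≠ 0 := hp0.ne'
    field_simp
  have hgeo : Summable fun e : ℕ => r ^ (e + 1) :=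
    (summable_nat_add_iff 1).2 (summable_geometric_of_lt_one hr0.le hr1)
  have hs1 : Summable fun e : ℕ => wloc (k + 1) p 0 * G k (p ^ (e + 1)) := by
    simp only [hterm]
    exact hgeo.mul_left _
  have hs : Summable fun e : ℕ => wloc (k + 1) p 0 * G k (p ^ e) :=
    (summable_nat_add_iff 1).1 hs1
  rw [← tsum_mul_left, hs.tsum_eq_zero_add]
  simp only [hterm, pow_zero, G_one]
  rw [tsum_mul_left]
  have h4 : ∑' e : ℕ, r ^ (e + 1) = r / (1 - r) := by
    have : ∀ n : ℕ, r ^ (n + 1) = r * r ^ n := fun n => by ring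
    simp only [this]
    rw [tsum_mul_left, tsum_geometric_of_lt_one hr0.le hr1, div_eq_mul_inv]
  rw [h4]
  have h5 : wloc (k + 1) p 0 =
      (cnt (k + 1) p + ((k : ℝ) + 1) * cnt k p * (1 - 1 / (p : ℝ))) / (p : ℝ) ^ k := by
    unfold wloc
    rw [if_pos rfl]
    push_cast
    simp
  have h6 : ∑ j ∈ Finset.range (k + 1), (p : ℝ) ^ (-((j : ℝ) * nu k)) =
      (1 - 1 / (p : ℝ)) / (1 - r) := by
    have h7 : ∀ j : ℕ, (p : ℝ) ^ (-((j : ℝ) * nu k)) = r ^ j := by
      intro j
      rw [hr, ← Real.rpow_natCast, ← Real.rpow_mul hp0.le]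
      congr 1
      ring
    simp only [h7]
    rw [geom_sum_eq hr1.ne, hrk, ← neg_div_neg_eq]
    congr 1 <;> ring
  rw [h6, h5]
  have h8 : (1 : ℝ) - r ≠ 0 := by linarith
  have h9 : (p : ℝ) ≠ 0 := hp0.ne'
  field_simp
  ring

theorem pf_KAP (h1 : T_SUM) (h2 : T_PRD) : T_KAP := by
  intro k hk
  obtain ⟨hm1, -, -, hw1, hloc⟩ := h2 k 1 hk le_rfl
  have hm1' : HasProd (fun p : Nat.Primes => wloc (k + 1) p ((1 : ℕ).factorization p))
      (wt (k + 1) 1) := hm1.hasProd
  have hsum := h1 k hk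
  have hG : ∀ E : ℕ, wt (k + 1) E * (E : ℝ) ^ (1 - nu k) = wt (k + 1) 1 * G k E := by
    intro E
    rcases Nat.eq_zero_or_pos E with rfl | hE
    · rw [G_zero hk, Nat.cast_zero, Real.zero_rpow (one_sub_nu hk).ne']
      ring
    · rw [wt_eq h2 hk hE]
      unfold G
      ring
  have hGs : Summable (G k) := by
    have h3 := hsum.mul_left (wt (k + 1) 1)⁻¹
    refine h3.congr fun E => ?_
    rw [hG]
    field_simp
  have h3 := EulerProduct.eulerProduct_hasProd (f := G k) (G_one k) (fun {m n} h => G_mul k h)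
    hGs.norm (G_zero hk)
  have h4 := hm1'.mul h3
  have h5 : (∑' E : ℕ, wt (k + 1) E * (E : ℝ) ^ (1 - nu k)) = wt (k + 1) 1 * ∑' E, G k E := by
    simp only [hG]
    rw [tsum_mul_left]
  refine ⟨?_, ?_⟩
  · rw [h5]
    have h6 : (fun p : Nat.Primes => wloc (k + 1) p ((1 : ℕ).factorization p) *
        ∑' e : ℕ, G k ((p : ℕ) ^ e)) =
        fun p : Nat.Primes => (cnt (k + 1) p + ((k : ℝ) + 1) * cnt k p *
          ∑ j ∈ Finset.range (k + 1), ((p : ℕ) : ℝ) ^ (-((j : ℝ) * nu k))) / ((p : ℕ) : ℝ) ^ k := by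
      funext p
      rw [Nat.factorization_one]
      exact local_eq p.2 (hloc p 0 p.2).2.2
    rw [h6] at h4
    exact h4
  · refine hsum.tsum_pos (fun E => ?_) 1 (by simpa using hw1)
    rcases Nat.eq_zero_or_pos E with rfl | hE
    · rw [Nat.cast_zero, Real.zero_rpow (one_sub_nu hk).ne', mul_zero]
    · exact mul_nonneg (h2 k E hk hE).2.2.1 (Real.rpow_nonneg (Nat.cast_nonneg _) _)

end Pool.Agent.H1.EQ
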